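import Pool.Agent.Run7.h420.Morse.Faith

/-!
# The topological full group of the Morse subshift contains a group of intermediate growth

The subgroup is generated by four involutions `a`, `b`, `c`, `d` and isomorphic to the Grigorchuk
group `G_ω` with `ω = (01)^∞` (the group studied by Erschler).  Let `x` be a point of the Morse
subshift.  The numbers `n` fall into pairs `{2 k + p, 2 k + 1 + p}` which are the images of the letters
under the substitution; `a` is the shift on the first and the inverse shift on the second element of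
such a pair, `b` is the same for the complementary pairing, and `c` and `d` are the restrictions of `b`
to the pairs `{n, n + 1}` with `x n = x (n + 1)` and with `x n ≠ x (n + 1)`.
-/

set_option autoImplicit false

namespace Pool.Agent.Results.MP_0e9457_al.MorseIntermediate

open Filter

/-! ### Substitution subshifts -/

/-- The substitution `s` applied to a word. -/
def subst {A : Type} (s : A → List A) (w : List A) : List A := w.flatMap s

/-- The substitution subshift `X_s`: the bi-infinite sequences all of whose finite subwords occur in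
some `s^n(a)`, `a` a letter, `n ≥ 1`. -/
def subshift {A : Type} (s : A → List A) : Set (ℤ → A) :=
  {x | ∀ (i : ℤ) (k : ℕ), ∃ (a : A) (n : ℕ), 1 ≤ n ∧
    (List.ofFn fun j : Fin k => x (i + (j : ℕ))) <:+: (subst s)^[n] [a]}

/-- The Morse substitution `0 ↦ 01`, `1 ↦ 10`; `false` is `0` and `true` is `1`. -/
def morse : Bool → List Bool
  | false => [false, true]
  | true => [true, false]

lemma shift_mem {A : Type} (s : A → List A) (x : ℤ → A) (hx : x ∈ subshift s) (m : ℤ) :
    (fun n => x (n + m)) ∈ subshift s := by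
  intro i k
  obtain ⟨a, n, hn, h⟩ := hx (i + m) k
  refine ⟨a, n, hn, ?_⟩
  have e : (fun j : Fin k => x (i + (j : ℕ) + m)) = fun j : Fin k => x (i + m + (j : ℕ)) := by
    funext j
    congr 1
    ring
  show (List.ofFn fun j : Fin k => x (i + (j : ℕ) + m)) <:+: _
  rw [e]
  exact h

lemma coord_cont {A : Type} [TopologicalSpace A] (s : A → List A) (n : ℤ) :
    Continuous fun x : subshift s => x.1 n :=
  (continuous_apply n).comp continuous_subtype_val

/-- The left shift `(T x)(n) = x(n + 1)` on the subshift, with the product topology. -/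
def T {A : Type} [TopologicalSpace A] (s : A → List A) : subshift s ≃ₜ subshift s where
  toFun x := ⟨fun n => x.1 (n + 1), shift_mem s x.1 x.2 1⟩
  invFun x := ⟨fun n => x.1 (n - 1), shift_mem s x.1 x.2 (-1)⟩
  left_inv x := by
    apply Subtype.ext
    funext n
    show x.1 (n - 1 + 1) = x.1 n
    rw [sub_add_cancel]
  right_inv x := by
    apply Subtype.ext
    funext n
    show x.1 (n + 1 - 1) = x.1 n
    rw [add_sub_cancel_right]
  continuous_toFun := Continuous.subtype_mk (continuous_pi fun n => coord_cont s (n + 1)) _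
  continuous_invFun := Continuous.subtype_mk (continuous_pi fun n => coord_cont s (n - 1)) _

/-! ### The topological full group -/

/-- The topological full group `[[T]]` of a homeomorphism `T` of `X`: the homeomorphisms `g` for which
there is a continuous `n : X → ℤ` with `g x = T^(n x) x` for all `x`. -/
def fullGroup {X : Type} [TopologicalSpace X] (T : X ≃ₜ X) : Subgroup (X ≃ₜ X) where
  carrier := {g | ∃ n : X → ℤ, Continuous n ∧ ∀ x, g x = (T ^ n x) x}
  one_mem' := ⟨fun _ => 0, continuous_const, fun x => by simp⟩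
  mul_mem' := by
    rintro g h ⟨n, hn, hg⟩ ⟨m, hm, hh⟩
    refine ⟨fun x => n (h x) + m x, (hn.comp h.continuous).add hm, fun x => ?_⟩
    rw [Homeomorph.mul_apply, hg (h x), zpow_add, Homeomorph.mul_apply, ← hh x]
  inv_mem' := by
    rintro g ⟨n, hn, hg⟩
    refine ⟨fun x => - n (g⁻¹ x), (hn.comp (g⁻¹).continuous).neg, fun x => ?_⟩
    have h1 : g (g⁻¹ x) = x := g.apply_symm_apply x
    have h2 := hg (g⁻¹ x)
    rw [h1] at h2
    calc g⁻¹ x = (T ^ (-n (g⁻¹ x)) * T ^ n (g⁻¹ x)) (g⁻¹ x) := by
          rw [← zpow_add, neg_add_cancel, zpow_zero, Homeomorph.one_apply]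
      _ = (T ^ (-n (g⁻¹ x))) ((T ^ n (g⁻¹ x)) (g⁻¹ x)) := rfl
      _ = (T ^ (-n (g⁻¹ x))) x := by rw [← h2]

/-! ### Growth -/

/-- The elements of word length at most `r` with respect to a finite set `S`. -/
def ball {Γ : Type} [Group Γ] (S : Finset Γ) (r : ℕ) : Set Γ :=
  {g | ∃ l : List Γ, l.length ≤ r ∧ (∀ s ∈ l, s ∈ S ∨ s⁻¹ ∈ S) ∧ l.prod = g}

/-- `Γ` is finitely generated and has intermediate growth: for every finite generating set the number
of elements of length at most `r` grows faster than every polynomial and slower than every exponential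
`e^(c r)`, `c > 0`. -/
def IntermediateGrowth (Γ : Type) [Group Γ] : Prop :=
  (∃ S : Finset Γ, Subgroup.closure (S : Set Γ) = ⊤) ∧
  ∀ S : Finset Γ, Subgroup.closure (S : Set Γ) = ⊤ →
    (∀ (k : ℕ) (C : ℝ), ∀ᶠ r : ℕ in atTop, C * (r : ℝ) ^ k < ((ball S r).ncard : ℝ)) ∧
    (∀ c : ℝ, 0 < c → ∀ᶠ r : ℕ in atTop, ((ball S r).ncard : ℝ) < Real.exp (c * r))

/-! ### Transfer of the growth estimates -/

open Run7.h420.Morse

lemma ncard_ball_eq {Γ Δ : Type} [Monoid Γ] [Monoid Δ] (g : Fin 4 → Γ) (h : Fin 4 → Δ)
    (H : ∀ v w, ev g v = ev g w ↔ ev h v = ev h w) (n : ℕ) :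
    (Ball g n).ncard = (Ball h n).ncard := by
  classical
  have h1 : Ball g n = ev g '' {w : List (Fin 4) | w.length ≤ n} := by
    ext x; simp [Ball, Set.mem_image]
  have h2 : Ball h n = ev h '' {w : List (Fin 4) | w.length ≤ n} := by
    ext x; simp [Ball, Set.mem_image]
  rw [h1, h2]
  -- choose representatives
  have hc : ∀ x ∈ ev g '' {w : List (Fin 4) | w.length ≤ n}, ∃ w : List (Fin 4),
      w.length ≤ n ∧ ev g w = x := by
    rintro x ⟨w, hw, rfl⟩
    exact ⟨w, hw, rfl⟩
  refine Set.ncard_congr (fun x hx => ev h (hc x hx).choose) ?_ ?_ ?_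
  · intro x hx
    exact ⟨_, (hc x hx).choose_spec.1, rfl⟩
  · intro x y hx hy he
    have := (H _ _).2 he
    rw [(hc x hx).choose_spec.2, (hc y hy).choose_spec.2] at this
    exact this
  · rintro y ⟨w, hw, rfl⟩
    refine ⟨ev g w, ⟨w, hw, rfl⟩, ?_⟩
    apply (H _ _).1
    exact (hc (ev g w) ⟨w, hw, rfl⟩).choose_spec.2

lemma list_of_top {Γ : Type} [Group Γ] (S : Finset Γ)
    (hS : Subgroup.closure (S : Set Γ) = ⊤) (g : Γ) :
    ∃ l : List Γ, (∀ s ∈ l, s ∈ S ∨ s⁻¹ ∈ S) ∧ l.prod = g := by
  have hg : g ∈ Subgroup.closure (S : Set Γ) := by rw [hS]; trivial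
  induction hg using Subgroup.closure_induction with
  | mem x hx => exact ⟨[x], by
      intro s hs
      rw [List.mem_singleton] at hs
      subst hs
      exact Or.inl hx, by simp⟩
  | one => exact ⟨[], by simp, by simp⟩
  | mul x y _ _ hx hy =>
    obtain ⟨l, h1, h2⟩ := hx
    obtain ⟨l', h1', h2'⟩ := hy
    refine ⟨l ++ l', fun s hs => ?_, by rw [List.prod_append, h2, h2']⟩
    rcases List.mem_append.1 hs with h | h
    · exact h1 s h
    · exact h1' s h
  | inv x _ hx =>
    obtain ⟨l, h1, h2⟩ := hx
    refine ⟨(l.map fun s => s⁻¹).reverse, fun s hs => ?_, by rw [← List.prod_inv_reverse, h2]⟩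
    rw [List.mem_reverse, List.mem_map] at hs
    obtain ⟨u, hu, rfl⟩ := hs
    rcases h1 u hu with h | h
    · right
      simpa using h
    · left
      exact h

lemma ball_finite' {Γ : Type} [Group Γ] (S : Finset Γ) (r : ℕ) : (ball S r).Finite := by
  classical
  -- letters from the finite set S ∪ S⁻¹
  let U : Finset Γ := S ∪ S.image (fun s => s⁻¹)
  have : ball S r ⊆ (fun l : List U => (l.map Subtype.val).prod) '' {l : List U | l.length ≤ r} := by
    rintro g ⟨l, h1, h2, rfl⟩
    have hU : ∀ s ∈ l, s ∈ U := by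
      intro s hs
      rcases h2 s hs with h | h
      · exact Finset.mem_union_left _ h
      · exact Finset.mem_union_right _ (Finset.mem_image.2 ⟨s⁻¹, h, inv_inv s⟩)
    refine ⟨l.attach.map (fun s => ⟨s.1, hU s.1 s.2⟩), ?_, ?_⟩
    · simpa using h1
    · simp only [List.map_map]
      congr 1
      exact List.attach_map_subtype_val l
  exact ((List.finite_length_le U r).image _).subset this

lemma transfer {Γ : Type} [Group Γ] (g : Fin 4 → Γ)
    (hgen : Subgroup.closure (Set.range g) = ⊤) (hsq : ∀ i, g i * g i = 1)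
    (H : ∀ v w, ev g v = ev g w ↔ ev gN v = ev gN w) : IntermediateGrowth Γ := by
  classical
  refine ⟨⟨Finset.univ.image g, by simpa using hgen⟩, fun S hS => ⟨fun k C => ?_, fun c hc => ?_⟩⟩
  · -- lower bound
    have hl : ∀ i, ∃ l : List Γ, (∀ s ∈ l, s ∈ S ∨ s⁻¹ ∈ S) ∧ l.prod = g i :=
      fun i => list_of_top S hS (g i)
    choose l hl1 hl2 using hl
    let K : ℕ := ∑ i, (l i).length
    have hK : ∀ i, (l i).length ≤ K := fun i =>
      Finset.single_le_sum (f := fun i => (l i).length) (fun _ _ => Nat.zero_le _)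
        (Finset.mem_univ i)
    have hsub : ∀ n, Ball g n ⊆ ball S (K * n) := by
      rintro n x ⟨w, hw, rfl⟩
      have : ∀ w : List (Fin 4), ∃ u : List Γ, u.length ≤ K * w.length ∧
          (∀ s ∈ u, s ∈ S ∨ s⁻¹ ∈ S) ∧ u.prod = ev g w := by
        intro w
        induction w with
        | nil => exact ⟨[], by simp, by simp, by simp [ev]⟩
        | cons i w ih =>
          obtain ⟨u, h1, h2, h3⟩ := ih
          refine ⟨l i ++ u, ?_, ?_, ?_⟩
          · rw [List.length_append, List.length_cons]
            have := hK i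
            nlinarith
          · intro s hs
            rcases List.mem_append.1 hs with h | h
            · exact hl1 i s h
            · exact h2 s h
          · rw [List.prod_append, hl2, h3]
            simp [ev]
      obtain ⟨u, h1, h2, h3⟩ := this w
      exact ⟨u, h1.trans (Nat.mul_le_mul_left _ hw), h2, h3⟩
    obtain ⟨D, hD⟩ := lower (k + 1)
    -- (n+1)^(k+1) ≤ ncard (ball S (K * (D * n)))
    have hlow : ∀ n : ℕ, (n + 1) ^ (k + 1) ≤ (ball S (K * (D * n))).ncard := by
      intro n
      refine (hD n).trans ?_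
      rw [← ncard_ball_eq g gN H]
      exact Set.ncard_le_ncard (hsub _) (ball_finite' S _)
    set Q : ℕ := K * D + 1 with hQ
    have hmono : ∀ r : ℕ, (r / Q + 1) ^ (k + 1) ≤ (ball S r).ncard := by
      intro r
      refine (hlow (r / Q)).trans (Set.ncard_le_ncard ?_ (ball_finite' S _))
      rintro x ⟨u, h1, h2, h3⟩
      refine ⟨u, h1.trans ?_, h2, h3⟩
      have h4 : Q * (r / Q) ≤ r := Nat.mul_div_le r Q
      have h5 : K * (D * (r / Q)) ≤ Q * (r / Q) := by
        rw [← mul_assoc]
        exact Nat.mul_le_mul_right _ (by omega)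
      exact h5.trans h4
    have hQ0 : (0 : ℝ) < Q := by positivity
    filter_upwards [eventually_gt_atTop (⌈|C| * (Q : ℝ) ^ (k + 1)⌉₊)] with r hr
    have h6 : ((r : ℝ) / Q) < (r / Q : ℕ) + 1 := by
      rw [div_lt_iff₀ hQ0]
      have := Nat.lt_div_mul_add (a := r) (b := Q) (by omega)
      have h7 : (r : ℝ) < ((r / Q * Q + Q : ℕ) : ℝ) := by exact_mod_cast this
      push_cast at h7
      nlinarith
    have h8 : ((r : ℝ) / Q) ^ (k + 1) ≤ ((ball S r).ncard : ℝ) := by
      calc ((r : ℝ) / Q) ^ (k + 1) ≤ (((r / Q : ℕ) : ℝ) + 1) ^ (k + 1) :=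
            pow_le_pow_left₀ (by positivity) h6.le _
        _ ≤ _ := by exact_mod_cast hmono r
    have h9 : |C| * (Q : ℝ) ^ (k + 1) < r :=
      lt_of_le_of_lt (Nat.le_ceil _) (by exact_mod_cast hr)
    have hr0 : (0 : ℝ) < r := lt_of_le_of_lt (by positivity) h9
    have h10 : C * (r : ℝ) ^ k < ((r : ℝ) / Q) ^ (k + 1) := by
      rw [div_pow, lt_div_iff₀ (by positivity), pow_succ (r : ℝ) k]
      calc C * (r : ℝ) ^ k * (Q : ℝ) ^ (k + 1) ≤ |C| * (r : ℝ) ^ k * (Q : ℝ) ^ (k + 1) := by
            gcongr
            exact le_abs_self C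
        _ = (r : ℝ) ^ k * (|C| * (Q : ℝ) ^ (k + 1)) := by ring
        _ < (r : ℝ) ^ k * r := mul_lt_mul_of_pos_left h9 (by positivity)
    exact h10.trans_le h8
  · -- upper bound
    have hw : ∀ s : Γ, ∃ w, ev g w = s := fun s =>
      exists_word g hsq (by rw [hgen]; trivial)
    choose w hw using hw
    let K : ℕ := ∑ s ∈ S, ((w s).length + (w s⁻¹).length)
    have hK : ∀ s ∈ S, (w s).length + (w s⁻¹).length ≤ K := fun s hs =>
      Finset.single_le_sum (f := fun s => (w s).length + (w s⁻¹).length)
        (fun _ _ => Nat.zero_le _) hs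
    have hsub : ∀ r, ball S r ⊆ Ball g (K * r) := by
      rintro r x ⟨l, h1, h2, rfl⟩
      have : ∀ l : List Γ, (∀ s ∈ l, s ∈ S ∨ s⁻¹ ∈ S) →
          ∃ u : List (Fin 4), u.length ≤ K * l.length ∧ ev g u = l.prod := by
        intro l
        induction l with
        | nil => exact fun _ => ⟨[], by simp, by simp [ev]⟩
        | cons s l ih =>
          intro h
          obtain ⟨u, h1, h2⟩ := ih (fun s hs => h s (List.mem_cons_of_mem _ hs))
          refine ⟨w s ++ u, ?_, ?_⟩
          · have h3 : (w s).length ≤ K := by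
              rcases h s List.mem_cons_self with h | h
              · have := hK s h
                omega
              · have := hK s⁻¹ h
                rw [inv_inv] at this
                omega
            rw [List.length_append, List.length_cons]
            nlinarith
          · rw [ev_append, hw, h2, List.prod_cons]
      obtain ⟨u, h3, h4⟩ := this l h2
      exact ⟨u, h3.trans (Nat.mul_le_mul_left _ h1), h4⟩
    have hη : 0 < c / (2 * ((K : ℝ) + 1)) := by positivity
    obtain ⟨M, hM⟩ := upper _ hη
    have hup : ∀ r : ℕ, ((ball S r).ncard : ℝ) ≤ |M| * Real.exp (c / 2 * r) := by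
      intro r
      have h1 : (ball S r).ncard ≤ (Ball gN (K * r)).ncard := by
        rw [← ncard_ball_eq g gN H]
        exact Set.ncard_le_ncard (hsub r) (ball_finite g _)
      have h2 : ((ball S r).ncard : ℝ) ≤ ((Ball gN (K * r)).ncard : ℝ) := by exact_mod_cast h1
      refine h2.trans ((hM (K * r)).trans ?_)
      apply mul_le_mul (le_abs_self M) _ (by positivity) (abs_nonneg M)
      apply Real.exp_le_exp.2
      push_cast
      rw [div_mul_eq_mul_div, div_le_iff₀ (by positivity)]
      have : 0 ≤ c * r := by positivity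
      nlinarith
    have hlim : Tendsto (fun r : ℕ => Real.exp (c / 2 * r)) atTop atTop :=
      Real.tendsto_exp_atTop.comp
        (tendsto_natCast_atTop_atTop.const_mul_atTop (by positivity))
    filter_upwards [hlim.eventually_gt_atTop |M|] with r hr
    calc ((ball S r).ncard : ℝ) ≤ |M| * Real.exp (c / 2 * r) := hup r
      _ < Real.exp (c / 2 * r) * Real.exp (c / 2 * r) :=
          mul_lt_mul_of_pos_right hr (Real.exp_pos _)
      _ = Real.exp (c * r) := by
          rw [← Real.exp_add]
          congr 1
          ring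

/-! ### The Morse subshift -/

/-- `x` looks around `0` like the Thue-Morse sequence or its complement around `m`. -/
def Mt (x : ℤ → Bool) (m L : ℕ) : Prop :=
  L ≤ m ∧ ∃ e : Bool, ∀ i : ℤ, -(L : ℤ) ≤ i → i ≤ L → x i = xor (t ((m : ℤ) + i).toNat) e

lemma subst_range (a : Bool) (N : ℕ) :
    subst morse ((List.range N).map fun j => xor (t j) a) =
      (List.range (2 * N)).map fun j => xor (t j) a := by
  induction N with
  | zero => rfl
  | succ N ih =>
    rw [List.range_succ, List.map_append, subst, List.flatMap_append]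
    rw [subst] at ih
    rw [ih, show 2 * (N + 1) = 2 * N + 1 + 1 by ring, List.range_succ, List.range_succ]
    simp only [List.map_append, List.map_cons, List.map_nil, List.flatMap_cons, List.flatMap_nil,
      List.append_nil, t_even, t_odd, List.append_assoc]
    cases t N <;> cases a <;> rfl

lemma iterate_subst (a : Bool) (n : ℕ) :
    (subst morse)^[n] [a] = (List.range (2 ^ n)).map fun j => xor (t j) a := by
  induction n with
  | zero =>
    simp [t_zero]
  | succ n ih =>
    rw [Function.iterate_succ_apply', ih, subst_range, pow_succ]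
    congr 2
    ring

lemma mt_of_mem {x : ℤ → Bool} (hx : x ∈ subshift morse) (L : ℕ) : ∃ m, Mt x m L := by
  obtain ⟨a, n, -, s, u, h⟩ := hx (-(L : ℤ)) (2 * L + 1)
  rw [iterate_subst] at h
  refine ⟨s.length + L, by omega, a, fun i h1 h2 => ?_⟩
  obtain ⟨j, hj⟩ : ∃ j : ℕ, i = -(L : ℤ) + j := ⟨(i + L).toNat, by omega⟩
  have hj2 : j < 2 * L + 1 := by omega
  have h3 := congrArg (fun l => l[s.length + j]?) h
  rw [List.append_assoc, List.getElem?_append_right (by omega),
    List.getElem?_append_left (by rw [List.length_ofFn]; omega)] at h3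
  rw [show s.length + j - s.length = j by omega, List.getElem?_ofFn, dif_pos hj2,
    List.getElem?_map] at h3
  by_cases h4 : s.length + j < 2 ^ n
  · rw [List.getElem?_range h4] at h3
    simp only [Option.map_some, Option.some.injEq] at h3
    rw [hj]
    rw [h3]
    congr 2
    omega
  · rw [List.getElem?_eq_none (by rw [List.length_range]; omega)] at h3
    simp at h3

lemma mem_of_mt {x : ℤ → Bool} (hx : ∀ L, ∃ m, Mt x m L) : x ∈ subshift morse := by
  intro i k
  obtain ⟨m, hm, e, H⟩ := hx (i.natAbs + k)
  set p : ℕ := ((m : ℤ) + i).toNat with hp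
  obtain ⟨n, hn⟩ : ∃ n, p + k < 2 ^ n := ⟨p + k, Nat.lt_two_pow_self⟩
  refine ⟨e, n + 1, by omega, ?_⟩
  rw [iterate_subst]
  have hn' : p + k < 2 ^ (n + 1) := hn.trans (Nat.pow_lt_pow_right (by norm_num) (by omega))
  have h1 : (List.ofFn fun j : Fin k => x (i + (j : ℕ))) =
      (((List.range (2 ^ (n + 1))).map fun j => xor (t j) e).drop p).take k := by
    apply List.ext_getElem?
    intro j
    by_cases hj : j < k
    · rw [List.getElem?_ofFn, dif_pos hj, List.getElem?_take_of_lt hj, List.getElem?_drop,
        List.getElem?_map, List.getElem?_range (by omega)]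
      simp only [Option.map_some]
      rw [H (i + (j : ℕ)) (by omega) (by omega)]
      congr 3
      omega
    · rw [List.getElem?_eq_none (by rw [List.length_ofFn]; omega),
        List.getElem?_eq_none (by
          rw [List.length_take]
          omega)]
  rw [h1]
  exact (List.take_prefix _ _).isInfix.trans (List.drop_suffix _ _).isInfix

/-- The translate of a point. -/
def tr (n : ℤ) (x : subshift morse) : subshift morse :=
  ⟨fun i => x.1 (i + n), shift_mem morse x.1 x.2 n⟩

lemma tr_tr (m n : ℤ) (x : subshift morse) : tr m (tr n x) = tr (n + m) x := by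
  apply Subtype.ext
  funext i
  show x.1 (i + m + n) = x.1 (i + (n + m))
  rw [show i + m + n = i + (n + m) by ring]

lemma tr_zero (x : subshift morse) : tr 0 x = x := by
  apply Subtype.ext
  funext i
  show x.1 (i + 0) = x.1 i
  rw [add_zero]

lemma T_zpow (n : ℤ) (x : subshift morse) : (T morse ^ n) x = tr n x := by
  induction n using Int.induction_on with
  | zero => rw [zpow_zero, Homeomorph.one_apply, tr_zero]
  | succ n ih =>
    rw [add_comm, zpow_add, zpow_one, Homeomorph.mul_apply, ih]
    show tr 1 (tr n x) = _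
    rw [tr_tr, add_comm]
  | pred n ih =>
    rw [sub_eq_add_neg, add_comm, zpow_add, zpow_neg_one, Homeomorph.mul_apply, ih]
    show tr (-1) (tr (-n) x) = _
    rw [tr_tr, add_comm]

lemma mt_tr {x : subshift morse} {m L : ℕ} (h : Mt x.1 m (L + 1)) (n : ℤ) (h1 : -1 ≤ n)
    (h2 : n ≤ 1) (m' : ℕ) (hm' : (m' : ℤ) = m + n) : Mt (tr n x).1 m' L := by
  obtain ⟨hm, e, H⟩ := h
  refine ⟨by omega, e, fun i h3 h4 => ?_⟩
  show x.1 (i + n) = _
  rw [H (i + n) (by push_cast; omega) (by push_cast; omega)]
  congr 3
  omega

/-! ### The four involutions -/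

/-- The displacement as a function of `x(-1), x(0), x(1), x(2)`. -/
def kap (i : Fin 4) (u v w z : Bool) : ℤ :=
  ![if u = v ∨ w = z then 1 else -1,
    if u = v ∨ w = z then -1 else 1,
    if v = w then 1 else if u = v then -1 else 0,
    if u = v ∨ w = z then (if u = v then 0 else -1) else (if v = w then 0 else 1)] i

/-- The displacement. -/
def ka (i : Fin 4) (x : subshift morse) : ℤ := kap i (x.1 (-1)) (x.1 0) (x.1 1) (x.1 2)

lemma ka_le (i : Fin 4) (x : subshift morse) : -1 ≤ ka i x ∧ ka i x ≤ 1 := by
  unfold ka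
  generalize x.1 (-1) = u
  generalize x.1 0 = v
  generalize x.1 1 = w
  generalize x.1 2 = z
  revert i u v w z
  decide

lemma ka_cont (i : Fin 4) : Continuous (ka i) := by
  have h : ka i = (fun p : Bool × Bool × Bool × Bool => kap i p.1 p.2.1 p.2.2.1 p.2.2.2) ∘
      fun x : subshift morse => (x.1 (-1), x.1 0, x.1 1, x.1 2) := rfl
  rw [h]
  refine continuous_of_discreteTopology.comp ?_
  have hc : ∀ n : ℤ, Continuous fun x : subshift morse => x.1 n := fun n =>
    (continuous_apply n).comp continuous_subtype_val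
  exact (hc _).prodMk ((hc _).prodMk ((hc _).prodMk (hc _)))

lemma ka_mt (i : Fin 4) {x : subshift morse} {m : ℕ} (h : Mt x.1 m 2) :
    ka i x = (gN i m : ℤ) - m := by
  obtain ⟨hm, e, H⟩ := h
  have e1 := H (-1) (by norm_num) (by norm_num)
  have e2 := H 0 (by norm_num) (by norm_num)
  have e3 := H 1 (by norm_num) (by norm_num)
  have e4 := H 2 (by norm_num) (by norm_num)
  rw [show ((m : ℤ) + -1).toNat = m - 1 by omega] at e1
  rw [show ((m : ℤ) + 0).toNat = m by omega] at e2
  rw [show ((m : ℤ) + 1).toNat = m + 1 by omega] at e3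
  rw [show ((m : ℤ) + 2).toNat = m + 2 by omega] at e4
  unfold ka
  rw [e1, e2, e3, e4]
  have hx : ∀ u v : Bool, (xor u e = xor v e) ↔ u = v := by
    intro u v
    cases u <;> cases v <;> cases e <;> decide
  rcases par m with ⟨k, rfl⟩ | ⟨k, rfl⟩
  · have q1 : t (2 * k + 1) = !t (2 * k) := by rw [t_odd, t_even]
    have q2 : (t (2 * k - 1) = t (2 * k)) ↔ q k = false := by
      have := q_even k (by omega)
      rw [q] at this
      constructor
      · intro h
        rw [h] at this
        simpa using this.symm
      · intro h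
        rw [h] at this
        simpa using this
    have q3 : (t (2 * k + 1) = t (2 * k + 2)) ↔ q (k + 1) = false := by
      have := q_even (k + 1) (by omega)
      rw [q, show 2 * (k + 1) - 1 = 2 * k + 1 by omega, show 2 * (k + 1) = 2 * k + 2 by ring]
        at this
      constructor
      · intro h
        rw [h] at this
        simpa using this.symm
      · intro h
        rw [h] at this
        simpa using this
    have q4 : q k = false ∨ q (k + 1) = false := by
      rcases par k with ⟨j, rfl⟩ | ⟨j, rfl⟩
      · exact Or.inr (q_odd j)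
      · exact Or.inl (q_odd j)
    have q5 : t (2 * k - 1) = t (2 * k) ∨ t (2 * k + 1) = t (2 * k + 2) := by
      rw [q2, q3]; exact q4
    have q6 : ¬ t (2 * k) = t (2 * k + 1) := by
      rw [q1]; cases t (2 * k) <;> decide
    fin_cases i
    · show (if _ then (1 : ℤ) else -1) = ((a (2 * k) : ℕ) : ℤ) - _
      rw [if_pos (by rw [hx, hx]; exact q5), a_even]
      push_cast; ring
    · show (if _ then (-1 : ℤ) else 1) = ((b (2 * k) : ℕ) : ℤ) - _
      rw [if_pos (by rw [hx, hx]; exact q5), b_even]
      push_cast; omega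
    · show (if _ then (1 : ℤ) else if _ then -1 else 0) = ((c (2 * k) : ℕ) : ℤ) - _
      have hc : c (2 * k) = if q k = true then 2 * k else 2 * k - 1 := by
        rw [c_even, if_neg (by omega)]
      rw [if_neg (by rw [hx]; exact q6), hc]
      by_cases h : q k = true
      · rw [if_neg (by rw [hx, q2, h]; decide), if_pos h]
        ring
      · rw [if_pos (by rw [hx, q2]; simpa using h), if_neg h]
        omega
    · show (if _ then (if _ then (0 : ℤ) else -1) else (if _ then 0 else 1)) =
        ((d (2 * k) : ℕ) : ℤ) - _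
      rw [if_pos (by rw [hx, hx]; exact q5), d_even]
      by_cases h : q k = true
      · rw [if_neg (by rw [hx, q2, h]; decide), if_pos h]
        omega
      · rw [if_pos (by rw [hx, q2]; simpa using h), if_neg h]
        ring
  · have q1 : t (2 * k + 1) = !t (2 * k) := by rw [t_odd, t_even]
    have q2 : ¬ t (2 * k + 1 - 1) = t (2 * k + 1) := by
      rw [show 2 * k + 1 - 1 = 2 * k by omega, q1]
      cases t (2 * k) <;> decide
    have q3 : ¬ t (2 * k + 1 + 1) = t (2 * k + 1 + 2) := by
      rw [show 2 * k + 1 + 1 = 2 * (k + 1) by ring, show 2 * k + 1 + 2 = 2 * (k + 1) + 1 by ring,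
        t_odd, t_even]
      cases t (k + 1) <;> decide
    have q4 : (t (2 * k + 1) = t (2 * k + 1 + 1)) ↔ q (k + 1) = false := by
      have := q_even (k + 1) (by omega)
      rw [q, show 2 * (k + 1) - 1 = 2 * k + 1 by omega,
        show 2 * (k + 1) = 2 * k + 1 + 1 by ring] at this
      constructor
      · intro h
        rw [h] at this
        simpa using this.symm
      · intro h
        rw [h] at this
        simpa using this
    have q5 : ¬ (t (2 * k + 1 - 1) = t (2 * k + 1) ∨ t (2 * k + 1 + 1) = t (2 * k + 1 + 2)) := by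
      rintro (h | h)
      · exact q2 h
      · exact q3 h
    fin_cases i
    · show (if _ then (1 : ℤ) else -1) = ((a (2 * k + 1) : ℕ) : ℤ) - _
      rw [if_neg (by rw [hx, hx]; exact q5), a_odd]
      push_cast; ring
    · show (if _ then (-1 : ℤ) else 1) = ((b (2 * k + 1) : ℕ) : ℤ) - _
      rw [if_neg (by rw [hx, hx]; exact q5), b_odd]
      push_cast; ring
    · show (if _ then (1 : ℤ) else if _ then -1 else 0) = ((c (2 * k + 1) : ℕ) : ℤ) - _
      rw [c_odd]
      by_cases h : q (k + 1) = true
      · rw [if_neg (by rw [hx, q4, h]; decide), if_neg (by rw [hx]; exact q2), if_pos h]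
        ring
      · rw [if_pos (by rw [hx, q4]; simpa using h), if_neg h]
        push_cast; ring
    · show (if _ then (if _ then (0 : ℤ) else -1) else (if _ then 0 else 1)) =
        ((d (2 * k + 1) : ℕ) : ℤ) - _
      rw [if_neg (by rw [hx, hx]; exact q5), d_odd]
      by_cases h : q (k + 1) = true
      · rw [if_neg (by rw [hx, q4, h]; decide), if_pos h]
        push_cast; ring
      · rw [if_pos (by rw [hx, q4]; simpa using h), if_neg h]
        ring

/-- The map on points. -/
def gfun (i : Fin 4) (x : subshift morse) : subshift morse := tr (ka i x) x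

lemma gfun_gfun (i : Fin 4) (x : subshift morse) : gfun i (gfun i x) = x := by
  obtain ⟨m, hm⟩ := mt_of_mem x.2 3
  have h2 : Mt x.1 m 2 := by
    obtain ⟨h1, e, H⟩ := hm
    exact ⟨by omega, e, fun j h3 h4 => H j (by push_cast at *; omega) (by push_cast at *; omega)⟩
  have k1 := ka_mt i h2
  have hb := ka_le i x
  have h3 : Mt (gfun i x).1 (gN i m) 2 := mt_tr hm _ hb.1 hb.2 _ (by rw [k1]; ring)
  have k2 := ka_mt i h3
  have h4 : gN i (gN i m) = m := by
    have := congrArg (fun e : Equiv.Perm ℕ => e m) (gN_sq i)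
    simpa using this
  rw [h4] at k2
  show tr (ka i (gfun i x)) (tr (ka i x) x) = x
  rw [tr_tr, k1, k2]
  rw [show ((gN i m : ℤ) - m + (m - (gN i m : ℤ))) = 0 by ring, tr_zero]

lemma gfun_cont (i : Fin 4) : Continuous (gfun i) := by
  have h : gfun i = (fun p : ℤ × subshift morse => tr p.1 p.2) ∘ fun x => (ka i x, x) := rfl
  rw [h]
  refine Continuous.comp ?_ ((ka_cont i).prodMk continuous_id)
  rw [continuous_prod_of_discrete_left]
  intro n
  exact Continuous.subtype_mk (continuous_pi fun j => coord_cont morse (j + n)) _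

/-- The four generators `a`, `b`, `c`, `d` as homeomorphisms of the Morse subshift. -/
def gX (i : Fin 4) : subshift morse ≃ₜ subshift morse where
  toFun := gfun i
  invFun := gfun i
  left_inv := gfun_gfun i
  right_inv := gfun_gfun i
  continuous_toFun := gfun_cont i
  continuous_invFun := gfun_cont i

lemma gX_full (i : Fin 4) : gX i ∈ fullGroup (T morse) :=
  ⟨ka i, ka_cont i, fun x => by rw [T_zpow]; rfl⟩

lemma gX_sq (i : Fin 4) : gX i * gX i = 1 := by
  ext x : 1
  exact gfun_gfun i x

lemma mt_le {x : ℤ → Bool} {m L L' : ℕ} (h : Mt x m L) (hL : L' ≤ L) : Mt x m L' := by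
  obtain ⟨h1, e, H⟩ := h
  exact ⟨by omega, e, fun j h3 h4 => H j (by omega) (by omega)⟩

lemma ev_mt (w : List (Fin 4)) (x : subshift morse) (m L : ℕ) (h : Mt x.1 m (L + w.length + 2)) :
    ev gX w x = tr ((ev gN w m : ℤ) - m) x ∧ Mt (ev gX w x).1 (ev gN w m) (L + 2) := by
  induction w generalizing L with
  | nil =>
    refine ⟨?_, mt_le h (by simp)⟩
    show x = tr ((m : ℤ) - m) x
    rw [sub_self, tr_zero]
  | cons i w ih =>
    obtain ⟨h1, h2⟩ := ih (L + 1) (by
      rw [List.length_cons] at h
      rw [show L + 1 + w.length + 2 = L + (w.length + 1) + 2 by ring]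
      exact h)
    set y := ev gX w x with hy
    set m' := ev gN w m with hm'
    have e1 : ev gX (i :: w) x = gfun i y := by
      show (ev gX (i :: w)) x = _
      simp only [ev, List.map_cons, List.prod_cons, Homeomorph.mul_apply]
      rfl
    have e2 : ev gN (i :: w) m = gN i m' := by
      simp only [ev, List.map_cons, List.prod_cons, Equiv.Perm.mul_apply]
      rfl
    have k1 := ka_mt i (mt_le h2 (by omega))
    have hb := ka_le i y
    rw [e1, e2]
    constructor
    · show tr (ka i y) y = _
      rw [k1]
      conv_lhs => rw [h1]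
      rw [tr_tr]
      congr 1
      ring
    · exact mt_tr (L := L + 2) (mt_le h2 (by omega)) _ hb.1 hb.2 _ (by rw [k1]; ring)

/-- The two-sided Thue-Morse sequence. -/
def star (i : ℤ) : Bool := if 0 ≤ i then t i.toNat else t (-1 - i).toNat

lemma star_mem : star ∈ subshift morse := by
  apply mem_of_mt
  intro L
  have hL : L < 4 ^ L := Nat.lt_pow_self (by norm_num)
  have t5 : t 5 = false := by
    have := t_odd 2
    rw [t_two] at this
    simpa using this
  have t6 : t 6 = false := by
    have := t_even 3
    rw [t_three] at this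
    simpa using this
  refine ⟨6 * 4 ^ L, by omega, false, fun i h1 h2 => ?_⟩
  rw [Bool.xor_false]
  unfold star
  by_cases hi : 0 ≤ i
  · rw [if_pos hi, show ((6 * 4 ^ L : ℕ) + i).toNat = 6 * 4 ^ L + i.toNat by omega,
      t_block _ _ _ (by omega), t6]
    simp
  · rw [if_neg hi]
    rw [show ((6 * 4 ^ L : ℕ) + i).toNat = 5 * 4 ^ L + (4 ^ L - 1 - (-1 - i).toNat) by omega,
      t_block _ _ _ (by omega), t5, t_pal _ _ (by omega)]
    simp

/-- The two-sided Thue-Morse sequence as a point of the subshift. -/
def st : subshift morse := ⟨star, star_mem⟩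

lemma star_aperiodic (k : ℕ) (hk : 1 ≤ k) (h : ∀ i : ℤ, star i = star (i + k)) : False := by
  have h1 := h ((k : ℤ) - 1)
  have h2 := h (k : ℤ)
  unfold star at h1 h2
  rw [if_pos (by omega), if_pos (by omega)] at h1 h2
  rw [show ((k : ℤ) - 1).toNat = k - 1 by omega,
    show ((k : ℤ) - 1 + k).toNat = 2 * k - 1 by omega] at h1
  rw [show ((k : ℤ)).toNat = k by omega, show ((k : ℤ) + k).toNat = 2 * k by omega] at h2
  have h3 := q_even k hk
  rw [q, q, ← h1, ← h2] at h3
  cases t (k - 1) <;> cases t k <;> simp at h3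

lemma tr_st_inj {p p' : ℕ} (h : tr p st = tr p' st) : p = p' := by
  have key : ∀ p p' : ℕ, p < p' → tr p st = tr p' st → False := by
    intro p p' hlt h
    apply star_aperiodic (p' - p) (by omega)
    intro i
    have h1 := congrArg (fun y : subshift morse => y.1 (i - p)) h
    have h2 : star (i - p + p) = star (i - p + p') := h1
    rw [sub_add_cancel] at h2
    rw [h2]
    congr 1
    omega
  rcases lt_trichotomy p p' with h1 | h1 | h1
  · exact (key p p' h1 h).elim
  · exact h1
  · exact (key p' p h1 h.symm).elim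

lemma mt_st (m L : ℕ) (h : L ≤ m) : Mt (tr m st).1 m L := by
  refine ⟨h, false, fun i h1 h2 => ?_⟩
  show star (i + m) = _
  unfold star
  rw [if_pos (by omega), Bool.xor_false, add_comm]

lemma ev_iff (v w : List (Fin 4)) : ev gX v = ev gX w ↔ ev gN v = ev gN w := by
  constructor
  · intro h
    have hG : ∀ u : List (Fin 4), ev gN u ∈ G := by
      intro u
      induction u with
      | nil => exact G.one_mem
      | cons i u ih => exact G.mul_mem (Subgroup.subset_closure ⟨i, rfl⟩) ih
    have h1 : (ev gN v)⁻¹ * ev gN w = 1 := by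
      apply eq_one_of_large (v.length + w.length + 2) _ (G.mul_mem (G.inv_mem (hG v)) (hG w))
      intro m hm
      have e1 := (ev_mt v (tr m st) m 0 (mt_st m _ (by omega))).1
      have e2 := (ev_mt w (tr m st) m 0 (mt_st m _ (by omega))).1
      rw [h, e2, tr_tr, tr_tr] at e1
      rw [show (m : ℤ) + ((ev gN w m : ℤ) - m) = (ev gN w m : ℕ) by ring,
        show (m : ℤ) + ((ev gN v m : ℤ) - m) = (ev gN v m : ℕ) by ring] at e1
      have e3 := tr_st_inj e1
      rw [Equiv.Perm.mul_apply, e3]
      simp
    rw [inv_mul_eq_one] at h1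
    exact h1
  · intro h
    ext x : 1
    obtain ⟨m, hm⟩ := mt_of_mem x.2 (v.length + w.length + 2)
    rw [(ev_mt v x m 0 (mt_le hm (by omega))).1, (ev_mt w x m 0 (mt_le hm (by omega))).1, h]

/-- The subgroup. -/
def H : Subgroup (subshift morse ≃ₜ subshift morse) := Subgroup.closure (Set.range gX)

/-- **The topological full group of the Morse subshift contains a finitely generated subgroup of
intermediate growth.** -/
theorem result : ∃ H : Subgroup (subshift morse ≃ₜ subshift morse),
    H ≤ fullGroup (T morse) ∧ IntermediateGrowth H := by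
  refine ⟨H, ?_, ?_⟩
  · rw [H, Subgroup.closure_le]
    rintro _ ⟨i, rfl⟩
    exact gX_full i
  · let g : Fin 4 → H := fun i => ⟨gX i, Subgroup.subset_closure ⟨i, rfl⟩⟩
    have hval : ∀ w, ((ev g w : H) : subshift morse ≃ₜ subshift morse) = ev gX w := by
      intro w
      induction w with
      | nil => rfl
      | cons i w ih =>
        show ((g i * ev g w : H) : subshift morse ≃ₜ subshift morse) = gX i * ev gX w
        rw [Subgroup.coe_mul, ih]
    apply transfer g
    · rw [eq_top_iff]
      rintro ⟨x, hx⟩ -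
      obtain ⟨w, hw⟩ := exists_word gX gX_sq hx
      have : (⟨x, hx⟩ : H) = ev g w := by
        apply Subtype.ext
        rw [hval, hw]
      rw [this]
      clear this hw hx
      induction w with
      | nil => exact Subgroup.one_mem _
      | cons i w ih => exact Subgroup.mul_mem _ (Subgroup.subset_closure ⟨i, rfl⟩) ih
    · intro i
      apply Subtype.ext
      exact gX_sq i
    · intro v w
      rw [← ev_iff, ← hval, ← hval]
      exact Subtype.ext_iff

end Pool.Agent.Results.MP_0e9457_al.MorseIntermediate
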